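import Pool.Agent.Helper44.KS.Defs

/-!
# The Kahn-Saks conjecture: goals D (translation invariance of the types)

`TSeq r` is a sequence of finite families of points `(a p, w p)` in `ℝ × ℝ^r` with `|w p| ≤ R` and weights
`1/S`, such that for all small `t` the points `a p + t • w p` fill the line with density one. It follows that the
joint distribution of `w p` is invariant under translations in `a p` (`S_TRL`), and hence that every value of `w`
which occurs with positive density near one place occurs near every other place (`S_PRE`). These goals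
are independent of `KSys` and of each other (the docstring says which goals are used).
-/

namespace Pool.Agent.Helper44.KS

open MeasureTheory Filter Topology Set
open scoped ENNReal ContDiff

noncomputable section

/-- Sequences of families of points whose projections fill the line. -/
structure TSeq (r : ℕ) where
  /-- number of indices -/
  k : ℕ → ℕ
  /-- the points used -/
  P : ∀ N, Finset (Fin (k N))
  /-- the scale -/
  S : ℕ → ℝ
  /-- the place -/
  a : ∀ N, Fin (k N) → ℝ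
  /-- the type -/
  w : ∀ N, Fin (k N) → Fin r → ℝ
  /-- bound of the types -/
  R : ℝ
  /-- radius of the admissible directions -/
  τ : ℝ
  S_pos : ∀ N, 0 < S N
  τ_pos : 0 < τ
  R_pos : 0 < R
  bd : ∀ N, ∀ p ∈ P N, ∀ i, |w N p i| ≤ R
  cnt : ∀ N (u : ℝ), (((P N).filter fun p => u ≤ a N p ∧ a N p < u + 1).card : ℝ) ≤ 15 * S N
  fill : ∀ t : Fin r → ℝ, ∑ i, |t i| ≤ τ → ∀ G : ℝ → ℝ, ContDiff ℝ ∞ G → HasCompactSupport G →
    Tendsto (fun N => (∑ p ∈ P N, G (a N p + ∑ i, t i * w N p i)) / S N) atTop (𝓝 (∫ y, G y))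

/-- TCT. Counting. PROOF. If `|∑ t_i w_i| ≤ τ R` then `a p + ∑ t_i w_i ∈ [u, v]` implies
`a p ∈ [u - τ R, v + τ R]`, covered by at most `v - u + 2 τ R + 2` unit cells. -/
def S_TCT : Prop := ∀ (r : ℕ) (T : TSeq r) (N : ℕ) (t : Fin r → ℝ) (u v : ℝ), ∑ i, |t i| ≤ T.τ →
  u ≤ v → (((T.P N).filter fun p => u ≤ T.a N p + ∑ i, t i * T.w N p i ∧
    T.a N p + ∑ i, t i * T.w N p i ≤ v).card : ℝ) ≤ 15 * (v - u + 2 * T.τ * T.R + 2) * T.S N

/-- HJ. Derivatives. PROOF (uses TCT). Induction on `l`. `l = []` is `fill`. Step `i :: l`, `j = l.length`: let `t` with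
`∑ |t| < τ` and for small real `h` (so that `t + h e_i` is admissible)
`F_N(h) = (1/S) ∑ G^(j)(a + t w + h w_i) ∏_{l} w`. By induction `F_N(h) → λ` for every `h`, with `λ` independent of
`h`. Let `F'_N = (1/S) ∑ G^(j+1)(a + t w) w_i ∏_{l} w`. Taylor's formula for `G^(j)` (bounded second derivative
`B`, and everything vanishes unless `a + t w` lies in the `R`-neighbourhood of the support, for `|h| ≤ 1`):
`|F_N(h) - F_N(0) - h F'_N| ≤ K h^2` with `K` independent of `N, h` (count by TCT, `|w| ≤ R`). So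
`|F'_N| ≤ |F_N(h) - F_N(0)|/|h| + K |h|`, hence `limsup |F'_N| ≤ K |h|` for every small `h ≠ 0`. -/
def S_HJ : Prop := ∀ (r : ℕ) (T : TSeq r) (l : List (Fin r)) (t : Fin r → ℝ), ∑ i, |t i| < T.τ →
  ∀ G : ℝ → ℝ, ContDiff ℝ ∞ G → HasCompactSupport G →
  Tendsto (fun N => (∑ p ∈ T.P N, iteratedDeriv l.length G (T.a N p + ∑ i, t i * T.w N p i) *
    (l.map (T.w N p)).prod) / T.S N) atTop (𝓝 (if l = [] then ∫ y, G y else 0))

/-- JLD. Finite differences are derivatives. PROOF. Induction on `j`; `j = 0`: `G = g`. Step: let `G₀` be the function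
for `j`; put `G y = ∫ s in 0..L, G₀ (y - s)` (for negative `L` as well). It is smooth with compact support and
`G' y = G₀ y - G₀ (y - L)`; so `G^(j+1) y = G₀^(j) y - G₀^(j) (y - L)`, and Pascal's rule gives the formula. -/
def S_JLD : Prop := ∀ (g : ℝ → ℝ), ContDiff ℝ ∞ g → HasCompactSupport g → ∀ (L : ℝ) (j : ℕ),
  ∃ G : ℝ → ℝ, ContDiff ℝ ∞ G ∧ HasCompactSupport G ∧ ∀ y, iteratedDeriv j G y =
    ∑ i ∈ Finset.range (j + 1), (-1 : ℝ) ^ i * (j.choose i : ℝ) * g (y - i * L)

/-- BSQ. Bounded sequences with small `j`-th differences. PROOF. By `tendsto_iff_ultrafilter` it is enough to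
consider an ultrafilter `𝒰 ≤ atTop`; the limits `β i` of `b · i` along `𝒰` exist (bounded), `|β i| ≤ B` and the `j`-th
difference of `β` is zero. Claim: `β` is constant. Induction on `j`: `j = 1` is clear; for `j ≥ 2` the `(j-1)`-st
difference is a constant `γ`, so the `(j-2)`-nd difference is an arithmetic progression with step `± γ`; it is
bounded by `2^(j-2) B`, so `γ = 0` and the induction hypothesis applies. (It is convenient to write the
`j`-th difference as the iterate of `β ↦ (fun i => β i - β (i+1))`.) -/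
def S_BSQ : Prop := ∀ (j : ℕ) (b : ℕ → ℕ → ℝ) (B : ℝ), 1 ≤ j → (∀ N i, |b N i| ≤ B) →
  (∀ i, Tendsto (fun N => ∑ l ∈ Finset.range (j + 1), (-1 : ℝ) ^ l * (j.choose l : ℝ) * b N (i + l))
    atTop (𝓝 0)) → Tendsto (fun N => b N 1 - b N 0) atTop (𝓝 0)

/-- TRL. Translation invariance. PROOF (uses HJ, JLD, BSQ, TCT). Claim: for all lists `l`,
`(1/S) ∑ (g (a - s) - g a) ∏_l w → 0`. For `l = []` this is `fill` with `t = 0` (both integrals agree). For
`j = l.length ≥ 1` put `b N i = (1/S) ∑ g (a - i s) ∏_l w`; it is bounded (TCT with `t = 0`), and by JLD (with `L = s`)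
`∑_{m ≤ j} (-1)^m C(j,m) b N (i + m) = (1/S) ∑ G^(j)(a - i s) ∏_l w → 0` by HJ for the shifted function
`y ↦ G (y - i s)` and `t = 0`. BSQ gives the claim. For polynomials: the property
`∀ l, (1/S) ∑ (g (a - s) - g a) ∏_l w * eval w Q → 0` holds for constants, sums and `Q * X i` (replace `l` by `i :: l`):
`MvPolynomial.induction_on`. -/
def S_TRL : Prop := ∀ (r : ℕ) (T : TSeq r) (g : ℝ → ℝ), ContDiff ℝ ∞ g → HasCompactSupport g →
  ∀ (s : ℝ) (Q : MvPolynomial (Fin r) ℝ), Tendsto (fun N => (∑ p ∈ T.P N,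
    (g (T.a N p - s) - g (T.a N p)) * MvPolynomial.eval (T.w N p) Q) / T.S N) atTop (𝓝 0)

/-- PRE. Presence at every place. PROOF (uses TRL, TCT). Let `M0 = 4 r R^2 + 1`,
`q(w) = 1 - ∑ (w_i - w*_i)^2 / M0 ∈ [0, 1]` for `|w_i| ≤ R`, and `Q = q^m` (a polynomial). On the given points
`q ≥ q1 := 1 - r ε^2/M0`; if some `|w_i - w*_i| > (r+2) ε` (and `|w_i| ≤ R`) then `q ≤ q2 := max 0 (1 - (r+2)^2 ε^2/M0) < q1`.
(`q1 > 0` may be assumed: if `r ε^2 ≥ M0`, then `(r+2) ε ≥ 2 R`, so every point of `P N` satisfies the second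
condition and one only needs a point with `|a p - (a0 + s)| ≤ 2 ε`, which exists by `fill`.) Let `g` be a smooth
bump with values in `[0, 1]`, `1` on `[a0 - ε, a0 + ε]`, supported in `[a0 - 2 ε, a0 + 2 ε]`. Choose `m` with
`q2^m * 15 (4 ε + 2) < κ q1^m / 2`. If for infinitely many `N` there was no such point, then for these `N`
`(1/S) ∑ g (a - s) Q(w) ≤ q2^m * 15 (4 ε + 2) (1)` and `(1/S) ∑ g a Q(w) ≥ κ q1^m`, so the difference stays away
from `0`, against TRL. (`15 (4 ε + 2)` is TCT with `t = 0`, with `2 τ R` added.) -/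
def S_PRE : Prop := ∀ (r : ℕ) (T : TSeq r) (κ ε a0 : ℝ) (w0 : Fin r → ℝ), 0 < κ → 0 < ε →
  (∀ i, |w0 i| ≤ T.R) →
  (∀ N, κ * T.S N ≤ ((T.P N).filter fun p => |T.a N p - a0| ≤ ε ∧ ∀ i, |T.w N p i - w0 i| ≤ ε).card) →
  ∀ s : ℝ, ∀ᶠ N in atTop, ∃ p ∈ T.P N, |T.a N p - (a0 + s)| ≤ 2 * ε ∧
    ∀ i, |T.w N p i - w0 i| ≤ (r + 2) * ε

end

end Pool.Agent.Helper44.KS
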