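import Pool.Agent.Helper44.KS.GoalsC
import Pool.Agent.Helper44.KS.GoalsD

/-!
# The Kahn-Saks conjecture: goals E (conclusion of the abstract theorem)
-/

namespace Pool.Agent.Helper44.KS

open MeasureTheory Filter Topology Set
open scoped ENNReal ContDiff

noncomputable section

/-- CLO. Finitely many bounded functions determine the types. PROOF (uses CLU, M3K). Let `K0` be the constant of M3K
and `D = 8 + 2 √C` (so `dist p q ≤ D` in the window, by `m2`). Choose `θ` and `B` with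
`4 K0 D θ ≤ η^2/4` and `8 √(K0) D * √(K0 (4 + √C)^3 / B) ≤ η^2/4`, `r = k` from CLU for `C, θ`, and
`ε = η^2/(8 B)`. Enumerate the centres `q_i` (`i : Fin k`, repeat one if there are fewer than `k`; if the window is
empty nothing is to be proved) and let `g_i d = max (-1) (min 1 (Y_{q_i} d / B))`. For `p, q` in the window with
centres `q_i, q_j`, `‖·‖` the norm of `L^2(μ)` (`‖Y_p - Y_q‖ ≤ √K0 dist p q` by M3K):
`‖Y_p - Y_q‖^2 = ⟨Y_p - Y_q, (Y_p - Y_{q_i}) - (Y_q - Y_{q_j})⟩ + ⟨Y_p - Y_q, Y_{q_i}⟩ - ⟨Y_p - Y_q, Y_{q_j}⟩`. The first term is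
at most `√K0 D * 2 √K0 θ`. `⟨Y_p - Y_q, Y_{q_i}⟩ = B ⟨Y_p - Y_q, g_i⟩ + ⟨Y_p - Y_q, Y_{q_i} - B g_i⟩`, where
`|B ⟨Y_p - Y_q, g_i⟩| ≤ B ε` by hypothesis and `|Y_{q_i} - B g_i|^2 ≤ |Y_{q_i}|^3/B`, so `‖Y_{q_i} - B g_i‖^2 ≤ K0 (4+√C)^3/B`.
Altogether `‖Y_p - Y_q‖^2 ≤ η^2`, and `dist p q ≤ ‖Y_p - Y_q‖` (Cauchy-Schwarz). -/
def S_CLO : Prop := ∀ c C η : ℝ, 0 < c → 0 < C → 0 < η → ∃ (r : ℕ) (ε : ℝ), 0 < ε ∧ ∀ Z : KSys c,
  ∃ g : Fin r → (Fin Z.n → ℝ) → ℝ, (∀ i, Measurable (g i)) ∧ (∀ i d, |g i d| ≤ 1) ∧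
    ∀ p ∈ Z.W C, ∀ q ∈ Z.W C,
      (∀ i, |∫ d, g i d * Z.Y d p ∂Z.μ - ∫ d, g i d * Z.Y d q ∂Z.μ| ≤ ε) → Z.dist p q ≤ η

/-- NRM. Many elements near `x` move relatively to `x`. PROOF (uses FIL, TLP, CEL, CNT, and `energy`). Write
`π_q = P(d_q < d_x)`; since `d x = 0` a.e., `π_q (1 - π_q) ≤ P(|Y_q| ≥ |a_q|) ≤ dist q x / |a_q|` and `≤ 1/4`. Split the sum
of `energy` (`1 ≤ (2/S) ∑ π (1 - π)`): (1) `|a_q| > C1`: by TLP and CEL at most `(2/S) ∑ K/(1+|a|)^3 ≤ 2 K K'/(1 + C1) ≤ 1/8`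
for `C1` large; (2) `|a_q| ≤ 1/6`: `FIL` with `ψ = 1` and a bump `1_{[-1/6,1/6]} ≤ G ≤ 1_{[-1/4,1/4]}` gives
at most `0.51 S` elements for large `N` (they lie in `W S`), contribution at most `2 * 0.51 / 4`; (3) `1/6 < |a_q| ≤ C1`,
`dist q x < θ`: at most `15 (2 C1 + 2) S` elements (CNT), contribution at most `2 * 15 (2 C1 + 2) * 6 θ ≤ 1/8` for
`θ` small; (4) the rest, `|a_q| ≤ C1` and `dist q x ≥ θ`: contribution at most `card/(2 S)`. So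
`card/(2 S) ≥ 1 - 1/8 - 0.255 - 1/8 ≥ 1/8`. -/
def S_NRM : Prop := ∃ C1 θ : ℝ, 1 ≤ C1 ∧ 0 < θ ∧ ∀ c : ℝ, 0 < c → ∀ Z : ℕ → KSys c,
  Tendsto (fun N => (Z N).S) atTop atTop → Filling Z → ∀ᶠ N in atTop,
  (Z N).S / 4 ≤ (((Z N).W C1).filter fun q => θ ≤ (Z N).dist q (Z N).x).card

/-- MKT. The types of a sequence of systems form a `TSeq`. PROOF (uses FIL). Take `P N = W S`, `a`, `w p i = ∫ g_i Y_p`
(`|w| ≤ E |Y_p| ≤ 4 = R` by `m1`), `τ = 1/2`, `cnt` from `cnt`. `fill`: `ψ = 1 + ∑ t_i (g_i - ∫ g_i)` has values in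
`[0, 2]` and mean `1`, and `∫ ψ d_p = a_p + ∑ t_i w_p,i`; apply FIL. -/
def S_MKT : Prop := ∀ (c : ℝ), 0 < c → ∀ Z : ℕ → KSys c, Tendsto (fun N => (Z N).S) atTop atTop →
  Filling Z → ∀ (r : ℕ) (g : ∀ N, Fin r → (Fin (Z N).n → ℝ) → ℝ), (∀ N i, Measurable (g N i)) →
  (∀ N i d, |g N i d| ≤ 1) →
  ∀ (κ ε a0 : ℝ) (w0 : Fin r → ℝ), 0 < κ → 0 < ε → (∀ i, |w0 i| ≤ 4) →
  (∀ N, κ * (Z N).S ≤ (((Z N).W (Z N).S).filter fun p => |(Z N).a p - a0| ≤ ε ∧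
    ∀ i, |∫ d, g N i d * (Z N).Y d p ∂(Z N).μ - w0 i| ≤ ε).card) →
  ∀ s : ℝ, ∀ᶠ N in atTop, ∃ p : Fin (Z N).n, |(Z N).a p - (a0 + s)| ≤ 2 * ε ∧
    ∀ i, |∫ d, g N i d * (Z N).Y d p ∂(Z N).μ - w0 i| ≤ (r + 2) * ε

/-- SHF. Copies of a moving element at every place. PROOF (uses NRM, CLO, MKT). Given `c, L, η`: `C1, θ` from NRM, `r, ε_w`
from CLO for `C := C1 + L + 1` and `η`; functions `g N i` from CLO. Choose `ε ≤ 1/4` with `2 ε ≤ η/2` and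
`(r + 3) ε ≤ ε_w`. Cover `[-C1, C1] × [-4, 4]^r` by `M'` boxes (side `ε` in every coordinate, centre `(a0, w0)` in
`[-C1, C1] × [-4, 4]^r`, so that points of the box are within `ε` of the centre). By NRM, for large `N` some box
contains at least `S/(4 M')` of the elements `q ∈ W C1` with `dist q x ≥ θ` (`W C1 ⊆ W S` for large `N`). Passing to a
subsequence (the hypotheses are inherited) we may assume that it is the same box `(a0, w0)` for all `N`, and that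
everything holds for all `N`. Take for `q` (depending on `N`) one such element of the box. For every `s` with
`|s| ≤ L`, MKT gives for large `N` (of the subsequence) an element `p` with `|a p - (a0 + s)| ≤ 2 ε` and
`|∫ g_i Y_p - w0 i| ≤ (r+2) ε`, so `|∫ g_i Y_p - ∫ g_i Y_q| ≤ (r+3) ε ≤ ε_w`, both in `W C`, hence `dist p q ≤ η`, and
`|a p - (a q + s)| ≤ 3 ε ≤ η` (choose `3 ε ≤ η`). Finitely many `s` at the same time: intersection of finitely many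
eventual statements. -/
def S_SHF : Prop := ∃ C1 θ : ℝ, 1 ≤ C1 ∧ 0 < θ ∧ ∀ (c L η : ℝ), 0 < c → 0 < L → 0 < η →
  ∀ F : Finset ℝ, (∀ s ∈ F, |s| ≤ L) → ∀ Z : ℕ → KSys c,
  Tendsto (fun N => (Z N).S) atTop atTop → Filling Z → ∃ N, ∃ q : Fin (Z N).n, |(Z N).a q| ≤ C1 ∧
    θ ≤ (Z N).dist q (Z N).x ∧ ∀ s ∈ F, ∃ p : Fin (Z N).n, (Z N).dist p q ≤ η ∧
      |(Z N).a p - ((Z N).a q + s)| ≤ η

/-- FIN. The main abstract theorem. PROOF (uses SHF, ACK). Given `c > 0` (`c < 1/2` by `nobal`, if `n ≥ 2`), `C1, θ` from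
SHF. Let `E = 4 + √C1` (bound of `E |Y_q|`, `m2`), `L = C1 + 8 E/c + 1`, `δ > 0` with `10 δ/θ ≤ c/4`, `h > 0` with
`20 h/θ ≤ c/4`, `η` with `2 η/h ≤ c/4`, `η < θ`; `F` the grid of multiples of `δ` in `[-L, L]` (together with
`± L`). Let `N, q` be given by SHF and `φ s = μ {d | d q + s < 0}`. `φ` is antitone, `φ (-L) ≥ 1 - c/4`, `φ L ≤ c/4`
(Markov: `φ L ≤ P(|Y_q| ≥ L - C1) ≤ E/(L - C1)`), and `φ s - φ s' ≤ P(|d q - d x + s| ≤ s' - s) ≤ 10 (s' - s)/θ` for `s ≤ s'` (ACK, `d x = 0`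
a.e.). So some `s` of the grid has `|φ s - 1/2| ≤ c/4` (the last grid point with `φ s ≥ 1/2`). Let `p` be the element for
this `s`. `d p = d q + s + (Y_p - Y_q) + (a p - a q - s)`, so
`|μ {d p < 0} - φ s| ≤ μ {|d q + s| ≤ h} + μ {|d p - d q - s| > h} ≤ 10 h/θ + 2 η/h ≤ c/2`. `p ≠ x` because
`dist p x ≥ θ - η > 0 = dist x x`. As `d x = 0` a.e., `|μ {d p < d x} - 1/2| ≤ 3 c/4 < c`, against `nobal`. -/
def S_FIN : Prop := S_SHF → S_ACK → S_MAIN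

end

end Pool.Agent.Helper44.KS
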