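import Pool.Agent.Helper44.KS.GoalsC

/-!
# ACK: anticoncentration of laws with log-concave tails
-/

namespace Pool.Agent.Helper44.KS

open MeasureTheory Filter Topology Set
open scoped ENNReal

/-- The decay of the upper tail beyond an interval of mass `p`. -/
theorem tail_up {G : ℝ → ℝ} (h0 : ∀ s, 0 ≤ G s) (h1 : ∀ s, G s ≤ 1)
    (hl : ∀ s s' t : ℝ, 0 < t → t < 1 → (G s) ^ (1 - t) * (G s') ^ t ≤ G ((1 - t) * s + t * s'))
    {b e s p : ℝ} (hbe : b < e) (hes : e < s) (hp0 : 0 < p) (hp : G e + p ≤ G b) :
    G s ≤ Real.exp (-(p * ((s - b) / (e - b)))) := by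
  set t := (e - b) / (s - b) with ht
  have hsb : 0 < s - b := by linarith
  have heb : 0 < e - b := by linarith
  have ht0 : 0 < t := div_pos heb hsb
  have ht1 : t < 1 := by rw [ht, div_lt_one hsb]; linarith
  have hpt : (1 - t) * b + t * s = e := by
    rw [ht]; field_simp; ring
  have h2 := hl b s t ht0 ht1
  rw [hpt] at h2
  have hGb : 0 < G b := by linarith [h0 e]
  rcases eq_or_lt_of_le (h0 s) with h3 | h3
  · rw [← h3]; positivity
  have h4 : G e ≤ G b * (1 - p) := by
    have := h1 b
    nlinarith
  have h5 : (G s) ^ t ≤ 1 - p := by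
    have h6 : (G b) ^ (1 - t) * (G s) ^ t ≤ (G b) ^ (1 - t) * ((G b) ^ t * (1 - p)) := by
      refine h2.trans (h4.trans (le_of_eq ?_))
      rw [← mul_assoc, ← Real.rpow_add hGb]
      norm_num
    have h7 := le_of_mul_le_mul_left h6 (Real.rpow_pos_of_pos hGb _)
    have h8 : (G b) ^ t ≤ 1 := Real.rpow_le_one hGb.le (h1 b) ht0.le
    have h9 : 0 ≤ 1 - p := by
      by_contra hneg
      push Not at hneg
      have := h0 e
      nlinarith
    nlinarith
  have h10 : (G s) ^ t ≤ Real.exp (-p) := h5.trans (by have := Real.add_one_le_exp (-p); linarith)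
  have h11 : G s = ((G s) ^ t) ^ (1 / t) := by
    rw [← Real.rpow_mul h3.le, mul_one_div_cancel ht0.ne', Real.rpow_one]
  rw [h11]
  refine (Real.rpow_le_rpow (Real.rpow_nonneg h3.le _) h10 (by positivity)).trans (le_of_eq ?_)
  rw [← Real.exp_mul]
  congr 1
  rw [ht]
  field_simp

theorem lsb {ν : Measure ℝ} (h : LCR ν) (hi : Integrable (fun u : ℝ => u) ν) {z r : ℝ} (hr : 0 < r) :
    ν.real {u | |u - z| ≤ r} * ∫ u, |u - z| ∂ν ≤ 5 * r := by
  have := h.prob
  set p := ν.real {u | |u - z| ≤ r} with hp
  have hp1 : p ≤ 1 := measureReal_le_one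
  rcases eq_or_lt_of_le (show 0 ≤ p from measureReal_nonneg) with h0 | h0
  · rw [← h0]; nlinarith
  set l := 2 * r + r / 8 with hl
  have hlpos : 0 < l := by positivity
  -- the tails
  have hup : ∀ s, r < s → ν.real (Ioi (z + s)) ≤ Real.exp (-(p * ((s + r + r / 8) / l))) := by
    intro s hs
    have := tail_up (G := fun s => ν.real (Ioi s)) (fun _ => measureReal_nonneg)
      (fun _ => measureReal_le_one) h.up (b := z - r - r / 8) (e := z + r) (s := z + s) (p := p)
      (by linarith) (by linarith) h0 (by
        have hd : Disjoint (Ioi (z + r)) {u : ℝ | |u - z| ≤ r} := by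
          rw [Set.disjoint_left]
          intro u hu hu2
          have h3 := (abs_le.1 (show |u - z| ≤ r from hu2)).2
          have h4 : z + r < u := hu
          linarith
        have hm : MeasurableSet {u : ℝ | |u - z| ≤ r} :=
          measurableSet_le (by fun_prop) measurable_const
        rw [hp, ← measureReal_union hd hm]
        refine measureReal_mono ?_
        rintro u (hu | hu)
        · have h4 : z + r < u := hu
          show z - r - r / 8 < u
          linarith
        · have h3 := (abs_le.1 (show |u - z| ≤ r from hu)).1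
          show z - r - r / 8 < u
          linarith)
    convert this using 4
    congr 1 <;> [ring; (rw [hl]; ring)]
  have hlo : ∀ s, r < s → ν.real (Iio (z - s)) ≤ Real.exp (-(p * ((s + r + r / 8) / l))) := by
    intro s hs
    have := tail_up (G := fun s => ν.real (Iio (-s))) (fun _ => measureReal_nonneg)
      (fun _ => measureReal_le_one) (fun s s' t ht0 ht1 => by
        have := h.lo (-s) (-s') t ht0 ht1
        convert this using 3
        ring) (b := -z - r - r / 8) (e := -z + r) (s := -z + s) (p := p)
      (by linarith) (by linarith) h0 (by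
        have hd : Disjoint (Iio (-(-z + r))) {u : ℝ | |u - z| ≤ r} := by
          rw [Set.disjoint_left]
          intro u hu hu2
          have h3 := (abs_le.1 (show |u - z| ≤ r from hu2)).1
          have h4 : u < -(-z + r) := hu
          linarith
        have hm : MeasurableSet {u : ℝ | |u - z| ≤ r} :=
          measurableSet_le (by fun_prop) measurable_const
        rw [hp, ← measureReal_union hd hm]
        refine measureReal_mono ?_
        rintro u (hu | hu)
        · have h4 : u < -(-z + r) := hu
          show u < -(-z - r - r / 8)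
          linarith
        · have h3 := (abs_le.1 (show |u - z| ≤ r from hu)).2
          show u < -(-z - r - r / 8)
          linarith)
    have e1 : -(-z + s) = z - s := by ring
    rw [e1] at this
    convert this using 4
    congr 1 <;> [ring; (rw [hl]; ring)]
  have htail : ∀ s, r < s → ν {u | s < |u - z|} ≤
      ENNReal.ofReal (2 * Real.exp (-(p * ((s + r + r / 8) / l)))) := by
    intro s hs
    have hsub : {u | s < |u - z|} ⊆ Ioi (z + s) ∪ Iio (z - s) := by
      intro u hu
      rcases lt_abs.1 (show s < |u - z| from hu) with h3 | h3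
      · left; show z + s < u; linarith
      · right; show u < z - s; linarith
    have h2 : ν.real {u | s < |u - z|} ≤ 2 * Real.exp (-(p * ((s + r + r / 8) / l))) := by
      refine (measureReal_mono hsub).trans ((measureReal_union_le _ _).trans ?_)
      have := hup s hs
      have := hlo s hs
      linarith
    rw [← ofReal_measureReal]
    exact ENNReal.ofReal_le_ofReal h2
  -- layer cake
  have hint : Integrable (fun u : ℝ => |u - z|) ν := (hi.sub (integrable_const z)).abs
  have hcake : ENNReal.ofReal (∫ u, |u - z| ∂ν) = ∫⁻ s in Ioi (0 : ℝ), ν {u | s < |u - z|} := by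
    rw [ofReal_integral_eq_lintegral_ofReal hint (ae_of_all _ fun u => abs_nonneg _)]
    exact lintegral_eq_lintegral_meas_lt ν (ae_of_all _ fun u => abs_nonneg _)
      hint.aestronglyMeasurable.aemeasurable
  have hsplit : ∫⁻ s in Ioi (0 : ℝ), ν {u | s < |u - z|} ≤
      (∫⁻ s in Ioc (0 : ℝ) r, (1 : ℝ≥0∞)) + ∫⁻ s in Ioi r,
        ENNReal.ofReal (2 * Real.exp (-(p * ((s + r + r / 8) / l)))) := by
    rw [← Ioc_union_Ioi_eq_Ioi hr.le]
    refine (lintegral_union_le _ _ _).trans (add_le_add ?_ ?_)
    · exact lintegral_mono fun s => prob_le_one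
    · exact setLIntegral_mono' measurableSet_Ioi fun s hs => htail s hs
  have hA : ∫⁻ s in Ioc (0 : ℝ) r, (1 : ℝ≥0∞) = ENNReal.ofReal r := by
    rw [setLIntegral_const, one_mul, Real.volume_Ioc, sub_zero]
  have ha : -(p / l) < 0 := by
    have := div_pos h0 hlpos
    linarith
  have hform : ∀ s : ℝ, 2 * Real.exp (-(p * ((s + r + r / 8) / l))) =
      2 * Real.exp (-(p * ((r + r / 8) / l))) * Real.exp (-(p / l) * s) := by
    intro s
    rw [mul_assoc, ← Real.exp_add]
    congr 2
    field_simp
    ring
  have hB : ∫⁻ s in Ioi r, ENNReal.ofReal (2 * Real.exp (-(p * ((s + r + r / 8) / l)))) =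
      ENNReal.ofReal (2 * l / p * Real.exp (-p)) := by
    rw [← ofReal_integral_eq_lintegral_ofReal]
    · congr 1
      simp_rw [hform]
      rw [integral_const_mul, integral_exp_mul_Ioi ha r]
      rw [neg_div, div_neg, neg_neg]
      have e1 : 2 * Real.exp (-(p * ((r + r / 8) / l))) * (Real.exp (-(p / l) * r) / (p / l)) =
          2 * l / p * (Real.exp (-(p * ((r + r / 8) / l))) * Real.exp (-(p / l) * r)) := by
        field_simp
      rw [e1, ← Real.exp_add]
      congr 2
      rw [hl]
      field_simp
      ring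
    · simp_rw [hform]
      exact ((integrableOn_exp_mul_Ioi ha r).const_mul _)
    · exact ae_of_all _ fun s => by positivity
  have hfin : ∫ u, |u - z| ∂ν ≤ r + 2 * l / p * Real.exp (-p) := by
    have h3 : ENNReal.ofReal (∫ u, |u - z| ∂ν) ≤ ENNReal.ofReal (r + 2 * l / p * Real.exp (-p)) := by
      rw [hcake, ENNReal.ofReal_add hr.le (by positivity), ← hA, ← hB]
      exact hsplit
    exact (ENNReal.ofReal_le_ofReal_iff (by positivity)).1 h3
  have hexp : Real.exp (-p) * (1 + p) ≤ 1 := by
    have := Real.add_one_le_exp p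
    calc Real.exp (-p) * (1 + p) ≤ Real.exp (-p) * Real.exp p :=
          mul_le_mul_of_nonneg_left (by linarith) (Real.exp_pos _).le
      _ = 1 := by rw [← Real.exp_add]; simp
  have hE := Real.exp_pos (-p)
  calc p * ∫ u, |u - z| ∂ν ≤ p * (r + 2 * l / p * Real.exp (-p)) :=
        mul_le_mul_of_nonneg_left hfin h0.le
    _ = p * r + 2 * l * Real.exp (-p) := by field_simp
    _ ≤ 5 * r := by
      rw [hl]
      have h6 : Real.exp (-p) ≤ 1 - p / 2 := by nlinarith
      nlinarith

theorem ack (hL : S_LAW) : S_ACK := by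
  intro c Z p q z h hh
  have hlaw := hL c Z p q
  have hm : Measurable fun d : Fin Z.n → ℝ => d p - d q := by fun_prop
  have hint : Integrable (fun d : Fin Z.n → ℝ => d p - d q) Z.μ := (Z.int p).sub (Z.int q)
  have hi : Integrable (fun u : ℝ => u) (Z.μ.map fun d : Fin Z.n → ℝ => d p - d q) := by
    rw [integrable_map_measure (by fun_prop) hm.aemeasurable]
    exact hint
  have h1 := lsb hlaw hi (z := z) hh
  rw [map_measureReal_apply hm (measurableSet_le (by fun_prop) measurable_const),
    integral_map hm.aemeasurable (by fun_prop)] at h1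
  have hmean : ∫ d, (d p - d q) ∂Z.μ = Z.a p - Z.a q := by
    rw [integral_sub (Z.int p) (Z.int q)]; rfl
  -- the mean deviation
  have hint2 : Integrable (fun d : Fin Z.n → ℝ => |d p - d q - z|) Z.μ :=
    (hint.sub (integrable_const z)).abs
  have h2 : |Z.a p - Z.a q - z| ≤ ∫ d, |d p - d q - z| ∂Z.μ := by
    have h3 : Z.a p - Z.a q - z = ∫ d, (d p - d q - z) ∂Z.μ := by
      rw [integral_sub hint (integrable_const z), hmean]
      simp
    rw [h3]
    exact abs_integral_le_integral_abs
  have h4 : Z.dist p q ≤ ∫ d, |d p - d q - z| ∂Z.μ + |Z.a p - Z.a q - z| := by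
    have h5 : ∫ d, (|d p - d q - z| + |Z.a p - Z.a q - z|) ∂Z.μ =
        ∫ d, |d p - d q - z| ∂Z.μ + |Z.a p - Z.a q - z| := by
      rw [integral_add hint2 (integrable_const _)]
      simp
    rw [← h5]
    unfold KSys.dist
    refine integral_mono_of_nonneg (ae_of_all _ fun d => abs_nonneg _)
      (hint2.add (integrable_const _)) (ae_of_all _ fun d => ?_)
    have : Z.Y d p - Z.Y d q = (d p - d q - z) - (Z.a p - Z.a q - z) := by
      unfold KSys.Y; ring
    show |Z.Y d p - Z.Y d q| ≤ _
    rw [this]
    exact abs_sub _ _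
  have hnn : 0 ≤ Z.μ.real {d | |d p - d q - z| ≤ h} := measureReal_nonneg
  have h6 : Z.μ.real {d : Fin Z.n → ℝ | |d p - d q - z| ≤ h} * ∫ d, |d p - d q - z| ∂Z.μ ≤ 5 * h := h1
  nlinarith

end Pool.Agent.Helper44.KS
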