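import Pool.Agent.Helper44.KS.GoalsC
import Pool.Agent.Helper75.KS.GoalsA

/-!
# Adaptors: the facts of `Helper75/KS/GoalsA.lean` in the form used in `GoalsC.lean`
-/

namespace Pool.Agent.Helper44.KS

open MeasureTheory Filter Topology Set
open Pool.Agent.Helper75.KS (RayStmt TprStmt TpxStmt CluStmt)

theorem law (h : RayStmt) : S_LAW := fun c Z p q => (h c Z p q).1

theorem tlk (h : TpxStmt) : S_TLK := by
  intro c Z p e l he hd hl
  obtain ⟨-, h1, h2, -⟩ := h c Z p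
  rw [h1] at hd
  have h3 := h2 l hl
  have hsub : {d | l * e < |Z.Y d p|} ⊆ {d | l * ∫ e, |Z.Y e p| ∂Z.μ < |Z.Y d p|} := by
    intro d hd'
    exact lt_of_le_of_lt (mul_le_mul_of_nonneg_left hd hl) hd'
  have h4 : Z.μ.real {d | l * e < |Z.Y d p|} ≤
      Z.μ.real {d | l * ∫ e, |Z.Y e p| ∂Z.μ < |Z.Y d p|} := measureReal_mono hsub
  have h5 : (0 : ℝ) < (2 : ℝ) ^ (-(l / 6)) := by positivity
  linarith

theorem m3k (h : TprStmt) : S_M3K := by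
  refine ⟨8000, by norm_num, fun c Z p q => ?_⟩
  obtain ⟨-, ⟨h1, h2⟩, ⟨h3, h4⟩, -⟩ := h c Z p q
  simp only [sq_abs]
  refine ⟨h1, h3, h2.trans ?_, h4⟩
  nlinarith [sq_nonneg (Z.dist p q)]

theorem clu (h : CluStmt) : S_CLU := by
  intro c C θ hc hC hθ
  obtain ⟨k, hk⟩ := h c C θ hc hC.le hθ
  refine ⟨k, fun Z => ?_⟩
  obtain ⟨Q, h1, h2, h3⟩ := hk Z
  exact ⟨Q, h1, h2, fun p hp => by
    obtain ⟨q, hq, hlt⟩ := h3 p hp
    exact ⟨q, hq, hlt.le⟩⟩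

end Pool.Agent.Helper44.KS
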