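import Pool.Agent.Helper44.KS.GoalsD

/-!
# BSQ: bounded sequences with small differences of order `j`
-/

namespace Pool.Agent.Helper44.KS

open Filter Topology Set

/-- The difference operator `β ↦ β i - β (i + 1)`. -/
noncomputable def dop (β : ℕ → ℝ) : ℕ → ℝ := fun i => β i - β (i + 1)

theorem dop_iter (j : ℕ) : ∀ (β : ℕ → ℝ) (i : ℕ), (dop^[j] β) i =
    ∑ l ∈ Finset.range (j + 1), (-1 : ℝ) ^ l * (j.choose l : ℝ) * β (i + l) := by
  induction j with
  | zero => intro β i; simp
  | succ j ih =>
    intro β i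
    rw [Function.iterate_succ_apply', dop, ih β i, ih β (i + 1)]
    rw [Finset.sum_range_succ' _ (j + 1), Finset.sum_range_succ' _ j]
    have h1 : ∀ l ∈ Finset.range (j + 1), (-1 : ℝ) ^ (l + 1) * ((j + 1).choose (l + 1) : ℝ) *
        β (i + (l + 1)) = (-1 : ℝ) ^ (l + 1) * (j.choose (l + 1) : ℝ) * β (i + (l + 1)) -
        (-1 : ℝ) ^ l * (j.choose l : ℝ) * β (i + 1 + l) := by
      intro l _
      rw [Nat.choose_succ_succ, show i + 1 + l = i + (l + 1) by ring]
      push_cast
      ring
    rw [Finset.sum_congr rfl h1, Finset.sum_sub_distrib]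
    rw [Finset.sum_range_succ (fun l => (-1 : ℝ) ^ (l + 1) * (j.choose (l + 1) : ℝ) *
      β (i + (l + 1))) j]
    simp
    ring

theorem dop_bdd {β : ℕ → ℝ} {B : ℝ} (h : ∀ i, |β i| ≤ B) (j : ℕ) : ∃ B', ∀ i, |(dop^[j] β) i| ≤ B' := by
  induction j with
  | zero => exact ⟨B, by simpa using h⟩
  | succ j ih =>
    obtain ⟨B', hB'⟩ := ih
    refine ⟨B' + B', fun i => ?_⟩
    rw [Function.iterate_succ_apply', dop]
    exact (abs_sub _ _).trans (add_le_add (hB' i) (hB' (i + 1)))

theorem dop_const : ∀ (j : ℕ) (β : ℕ → ℝ) (B : ℝ), 1 ≤ j → (∀ i, |β i| ≤ B) →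
    (∀ i, (dop^[j] β) i = 0) → ∀ i, β i = β (i + 1) := by
  intro j
  induction j with
  | zero => intro β B h; omega
  | succ j ih =>
    intro β B _ hB h0 i
    rcases Nat.eq_zero_or_pos j with rfl | hj
    · have := h0 i
      simp only [zero_add, Function.iterate_one, dop] at this
      linarith
    · refine ih β B hj hB ?_ i
      obtain ⟨j', rfl⟩ : ∃ j', j = j' + 1 := ⟨j - 1, by omega⟩
      -- the iterate of order `j' + 1` is constant, it is the difference of a bounded sequence
      have hc : ∀ i, (dop^[j' + 1] β) i = (dop^[j' + 1] β) 0 := by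
        intro i
        induction i with
        | zero => rfl
        | succ i ihi =>
          have := h0 i
          rw [Function.iterate_succ_apply', dop] at this
          linarith
      obtain ⟨B', hB'⟩ := dop_bdd hB j'
      set γ := (dop^[j' + 1] β) 0 with hγ
      have hl : ∀ i : ℕ, (dop^[j'] β) i = (dop^[j'] β) 0 - i * γ := by
        intro i
        induction i with
        | zero => simp
        | succ i ihi =>
          have := hc i
          rw [Function.iterate_succ_apply', dop] at this
          push_cast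
          linarith
      have hγ0 : γ = 0 := by
        by_contra hne
        obtain ⟨m, hm⟩ := exists_nat_gt (2 * B' / |γ|)
        have hpos : 0 < |γ| := abs_pos.2 hne
        have h1 : 2 * B' < m * |γ| := by rwa [div_lt_iff₀ hpos] at hm
        have h2 : m * |γ| = |(dop^[j'] β) 0 - (dop^[j'] β) m| := by
          rw [hl m, sub_sub_cancel, abs_mul, Nat.abs_cast]
        have h3 := abs_sub ((dop^[j'] β) 0) ((dop^[j'] β) m)
        have h4 := hB' 0
        have h5 := hB' m
        linarith
      intro i
      rw [hc i, hγ0]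

theorem bsq : S_BSQ := by
  intro j b B hj hB hlim
  rw [tendsto_iff_ultrafilter]
  intro 𝒰 h𝒰
  have hex : ∀ i, ∃ β ∈ Icc (-B) B, Tendsto (fun N => b N i) 𝒰 (𝓝 β) := by
    intro i
    have hk : IsCompact (Icc (-B) B) := isCompact_Icc
    have := hk.ultrafilter_le_nhds (𝒰.map fun N => b N i) (by
      rw [Ultrafilter.coe_map, le_principal_iff, mem_map]
      filter_upwards with N
      exact abs_le.1 (hB N i))
    obtain ⟨β, hβ, h⟩ := this
    exact ⟨β, hβ, h⟩
  choose β hβ ht using hex
  have h0 : ∀ i, (dop^[j] β) i = 0 := by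
    intro i
    rw [dop_iter]
    refine tendsto_nhds_unique ?_ ((hlim i).mono_left h𝒰)
    exact tendsto_finsetSum _ fun l _ => (ht (i + l)).const_mul _
  have h1 := dop_const j β B hj (fun i => abs_le.2 (hβ i)) h0 0
  have h2 := (ht 1).sub (ht 0)
  rw [zero_add] at h1
  rwa [← h1, sub_self] at h2

end Pool.Agent.Helper44.KS
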