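import Pool.Agent.Helper44.KS.GoalsC

/-!
# DET: comparison of two configurations
-/

namespace Pool.Agent.Helper44.KS

open MeasureTheory Filter Topology Set

theorem det (hCNT : S_CNT) : S_DET := by
  intro G L C B hL hC hG hB hG0
  set C2 : ℝ := 2 * C + 32 with hC2
  set M : ℝ := 15 * (2 * C2 + 2) with hM
  have hC2pos : 0 < C2 := by positivity
  have hMpos : 0 < M := by positivity
  have hBn : 0 ≤ B := (abs_nonneg _).trans (hB 0)
  refine ⟨L * (√M * √(1 + C2 ^ 2)) + 8 * B + 1, by positivity, ?_⟩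
  intro c Z f d ρ hρ hρ1 hf hd hnq
  have hS : 0 < Z.S := lt_of_lt_of_le one_pos Z.one_le
  classical
  -- the sums differ only over the window
  have hsum : ∑ p, G (d p) = ∑ p ∈ Z.W Z.S, G (d p) := by
    symm
    refine Finset.sum_subset (Finset.subset_univ _) fun p _ hp => ?_
    have h1 : Z.S < |Z.a p| := by
      simpa [KSys.W] using hp
    exact hG0 _ ((hd p h1).trans_le le_rfl)
  rw [hsum, ← sub_div, ← Finset.sum_sub_distrib, abs_div, abs_of_pos hS, div_le_iff₀ hS]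
  refine (Finset.abs_sum_le_sum_abs _ _).trans ?_
  -- termwise bound
  set e : Fin Z.n → ℝ := fun p => |d p - f p| with he
  have hnq2 : ∑ p ∈ Z.W Z.S, (d p - f p) ^ 2 / (1 + Z.a p ^ 2) < ρ ^ 2 * Z.S := by
    have := hnq
    unfold KSys.nq at this
    rwa [div_lt_iff₀ hS] at this
  have hterm : ∀ p ∈ Z.W Z.S, |G (f p) - G (d p)| ≤
      (if |Z.a p| ≤ C2 then L * |d p - f p| else 0) +
        8 * B * ((d p - f p) ^ 2 / (1 + Z.a p ^ 2)) := by
    intro p hp
    have hnn : 0 ≤ (d p - f p) ^ 2 / (1 + Z.a p ^ 2) := by positivity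
    by_cases hc : |Z.a p| ≤ C2
    · rw [if_pos hc]
      have h1 := hG (f p) (d p)
      rw [abs_sub_comm (f p) (d p)] at h1
      have : 0 ≤ 8 * B * ((d p - f p) ^ 2 / (1 + Z.a p ^ 2)) := by positivity
      linarith
    · rw [if_neg hc, zero_add]
      push Not at hc
      have h1 := hf p hp
      have h2 : |Z.a p| - 8 ≤ |f p| := by
        have := abs_sub_abs_le_abs_sub (Z.a p) (f p)
        rw [abs_sub_comm] at this
        linarith
      have h3 : G (f p) = 0 := hG0 _ (by linarith)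
      rw [h3, zero_sub, abs_neg]
      by_cases hdC : C < |d p|
      · rw [hG0 _ hdC, abs_zero]
        positivity
      · push Not at hdC
        have h4 : |Z.a p| / 2 ≤ |d p - f p| := by
          have := abs_sub_abs_le_abs_sub (f p) (d p)
          rw [abs_sub_comm] at this
          linarith
        have h5 : (Z.a p) ^ 2 / 4 ≤ (d p - f p) ^ 2 := by
          have := mul_self_le_mul_self (by positivity) h4
          rw [← sq_abs (Z.a p), ← sq_abs (d p - f p)]
          nlinarith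
        have h6 : 1 ≤ (Z.a p) ^ 2 := by
          rw [← sq_abs (Z.a p)]
          nlinarith
        have h7 : (1 : ℝ) / 8 ≤ (d p - f p) ^ 2 / (1 + Z.a p ^ 2) := by
          rw [le_div_iff₀ (by positivity)]
          linarith
        have h8 := hB (d p)
        nlinarith
  refine (Finset.sum_le_sum hterm).trans ?_
  rw [Finset.sum_add_distrib, ← Finset.mul_sum, ← Finset.sum_filter, ← Finset.mul_sum]
  -- Cauchy-Schwarz on the window `C2`
  set W2 := (Z.W Z.S).filter fun p => |Z.a p| ≤ C2 with hW2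
  have hcard : (W2.card : ℝ) ≤ M * Z.S := by
    have h1 := hCNT c Z (-C2) C2 (by linarith)
    have h2 : W2.card ≤ (Finset.univ.filter fun p => -C2 ≤ Z.a p ∧ Z.a p ≤ C2).card := by
      refine Finset.card_le_card fun p hp => ?_
      rw [hW2, Finset.mem_filter] at hp
      rw [Finset.mem_filter]
      exact ⟨Finset.mem_univ _, abs_le.1 hp.2⟩
    have h3 : (W2.card : ℝ) ≤ ((Finset.univ.filter fun p => -C2 ≤ Z.a p ∧ Z.a p ≤ C2).card : ℝ) := by
      exact_mod_cast h2
    refine h3.trans (h1.trans (le_of_eq ?_))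
    rw [hM]; ring
  have hsq : ∑ p ∈ W2, |d p - f p| ^ 2 ≤ (1 + C2 ^ 2) * (ρ ^ 2 * Z.S) := by
    have h1 : ∑ p ∈ W2, |d p - f p| ^ 2 ≤
        (1 + C2 ^ 2) * ∑ p ∈ W2, (d p - f p) ^ 2 / (1 + Z.a p ^ 2) := by
      rw [Finset.mul_sum]
      refine Finset.sum_le_sum fun p hp => ?_
      rw [hW2, Finset.mem_filter] at hp
      have h2 : (Z.a p) ^ 2 ≤ C2 ^ 2 := by
        rw [← sq_abs (Z.a p)]
        exact pow_le_pow_left₀ (abs_nonneg _) hp.2 2
      rw [sq_abs, mul_div_assoc', le_div_iff₀ (by positivity)]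
      have := sq_nonneg (d p - f p)
      nlinarith
    refine h1.trans (mul_le_mul_of_nonneg_left ?_ (by positivity))
    refine le_trans ?_ hnq2.le
    exact Finset.sum_le_sum_of_subset_of_nonneg (Finset.filter_subset _ _)
      fun p _ _ => by positivity
  have hCS : (∑ p ∈ W2, |d p - f p|) ^ 2 ≤ (W2.card : ℝ) * ∑ p ∈ W2, |d p - f p| ^ 2 :=
    sq_sum_le_card_mul_sum_sq
  have hX : ∑ p ∈ W2, |d p - f p| ≤ √M * √(1 + C2 ^ 2) * (ρ * Z.S) := by
    refine le_of_sq_le_sq ?_ (by positivity)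
    have h1 : (√M * √(1 + C2 ^ 2) * (ρ * Z.S)) ^ 2 = M * (1 + C2 ^ 2) * (ρ * Z.S) ^ 2 := by
      rw [mul_pow, mul_pow, Real.sq_sqrt hMpos.le, Real.sq_sqrt (by positivity)]
    rw [h1]
    refine hCS.trans ?_
    calc (W2.card : ℝ) * ∑ p ∈ W2, |d p - f p| ^ 2
        ≤ (M * Z.S) * ((1 + C2 ^ 2) * (ρ ^ 2 * Z.S)) :=
          mul_le_mul hcard hsq (Finset.sum_nonneg fun p _ => by positivity) (by positivity)
      _ = M * (1 + C2 ^ 2) * (ρ * Z.S) ^ 2 := by ring
  have h9 : ∑ p ∈ Z.W Z.S, (d p - f p) ^ 2 / (1 + Z.a p ^ 2) ≤ ρ * Z.S := by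
    refine hnq2.le.trans ?_
    have : ρ ^ 2 ≤ ρ := by nlinarith
    exact mul_le_mul_of_nonneg_right this hS.le
  calc L * ∑ p ∈ W2, |d p - f p| + 8 * B * ∑ p ∈ Z.W Z.S, (d p - f p) ^ 2 / (1 + Z.a p ^ 2)
      ≤ L * (√M * √(1 + C2 ^ 2) * (ρ * Z.S)) + 8 * B * (ρ * Z.S) :=
        add_le_add (mul_le_mul_of_nonneg_left hX hL) (mul_le_mul_of_nonneg_left h9 (by positivity))
    _ = (L * (√M * √(1 + C2 ^ 2)) + 8 * B) * ρ * Z.S := by ring
    _ ≤ (L * (√M * √(1 + C2 ^ 2)) + 8 * B + 1) * ρ * Z.S := by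
        refine mul_le_mul_of_nonneg_right (mul_le_mul_of_nonneg_right (by linarith) hρ.le) hS.le

end Pool.Agent.Helper44.KS
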