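import Mathlib

/-!
# The Kahn-Saks conjecture: the abstract systems

`KSys c` is one normalized random configuration `d : Fin n → ℝ` (in the application
`d p = (V p - V x) / S`, where `V` is the exponential model of a random linear extension, `x` is the
element whose rank `r_x` has the largest mean deviation and `S = E |r_x - E r_x|`), in which no pair is
balanced up to `c`. The main abstract theorem is `S_MAIN`: there is no sequence of such systems with
`S → ∞` whose points fill the line with density one.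
-/

namespace Pool.Agent.Helper44.KS

open MeasureTheory Filter Topology Set
open scoped ENNReal ContDiff

noncomputable section

/-- A normalized random configuration without `c`-balanced pairs. -/
structure KSys (c : ℝ) where
  /-- number of elements -/
  n : ℕ
  /-- the law of the configuration -/
  μ : Measure (Fin n → ℝ)
  /-- the scale -/
  S : ℝ
  /-- the reference element -/
  x : Fin n
  prob : IsProbabilityMeasure μ
  one_le : 1 ≤ S
  int : ∀ p, Integrable (fun d : Fin n → ℝ => d p) μ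
  ref : ∀ᵐ d ∂μ, d x = 0
  noties : ∀ p q, p ≠ q → ∀ᵐ d ∂μ, d p ≠ d q
  /-- log-concavity (Prekopa-Leindler) for open convex sets -/
  lc : ∀ (A B C : Set (Fin n → ℝ)) (t : ℝ), IsOpen A → IsOpen B → IsOpen C → Convex ℝ A →
    Convex ℝ B → 0 < t → t < 1 → (∀ u ∈ A, ∀ v ∈ B, (1 - t) • u + t • v ∈ C) →
    (μ.real A) ^ (1 - t) * (μ.real B) ^ t ≤ μ.real C
  m1 : ∀ p, |∫ e, e p ∂μ| ≤ S → ∫ d, |d p - ∫ e, e p ∂μ| ∂μ ≤ 4
  m2 : ∀ p, ∫ d, |d p - ∫ e, e p ∂μ| ∂μ ≤ 4 + √|∫ e, e p ∂μ|
  cnt : ∀ u : ℝ, (Fintype.card {p : Fin n // u ≤ ∫ e, e p ∂μ ∧ ∫ e, e p ∂μ < u + 1} : ℝ) ≤ 15 * S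
  /-- from `S = E |∑ q, (1[d q < d x] - P (d q < d x))|` -/
  energy : S ≤ 2 * ∑ q, μ.real {d | d q < d x} * (1 - μ.real {d | d q < d x})
  nobal : ∀ p q, p ≠ q → c < |μ.real {d | d p < d q} - 1 / 2|

attribute [instance] KSys.prob

namespace KSys

variable {c : ℝ} (Z : KSys c)

/-- The mean position. -/
def a (p : Fin Z.n) : ℝ := ∫ e, e p ∂Z.μ

/-- The displacement. -/
def Y (d : Fin Z.n → ℝ) (p : Fin Z.n) : ℝ := d p - Z.a p

/-- The window of radius `C`. -/
def W (C : ℝ) : Finset (Fin Z.n) := Finset.univ.filter fun p => |Z.a p| ≤ C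

/-- The mean distance of the displacements of two elements. -/
def dist (p q : Fin Z.n) : ℝ := ∫ d, |Z.Y d p - Z.Y d q| ∂Z.μ

/-- The square of the seminorm on configurations. -/
def nq (f : Fin Z.n → ℝ) : ℝ := (∑ p ∈ Z.W Z.S, f p ^ 2 / (1 + Z.a p ^ 2)) / Z.S

end KSys

/-- The points fill the line with density one. -/
def Filling {c : ℝ} (Z : ℕ → KSys c) : Prop :=
  ∀ G : ℝ → ℝ, Continuous G → HasCompactSupport G → ∀ ε : ℝ, 0 < ε →
    Tendsto (fun N => (Z N).μ.real {d | ε < |(∑ p, G (d p)) / (Z N).S - ∫ y, G y|}) atTop (𝓝 0)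

/-- MAIN. The main abstract theorem. -/
def S_MAIN : Prop := ∀ c : ℝ, 0 < c → ∀ Z : ℕ → KSys c,
  Tendsto (fun N => (Z N).S) atTop atTop → Filling Z → False

/-- A law on the line with log-concave tails on both sides. -/
structure LCR (ν : Measure ℝ) : Prop where
  prob : IsProbabilityMeasure ν
  up : ∀ s s' t : ℝ, 0 < t → t < 1 →
    (ν.real (Ioi s)) ^ (1 - t) * (ν.real (Ioi s')) ^ t ≤ ν.real (Ioi ((1 - t) * s + t * s'))
  lo : ∀ s s' t : ℝ, 0 < t → t < 1 →
    (ν.real (Iio s)) ^ (1 - t) * (ν.real (Iio s')) ^ t ≤ ν.real (Iio ((1 - t) * s + t * s'))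

end

end Pool.Agent.Helper44.KS
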