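import Pool.Agent.Helper44.KS.Defs

/-!
# The Kahn-Saks conjecture: goals C (attainable configurations fill the line)

`Z.a p` is the mean position, `Z.Y d p = d p - Z.a p` the displacement, `Z.W C` the window
`|Z.a p| ≤ C`, `Z.dist p q = E |Y_p - Y_q|`, `Z.nq f = (1/S) ∑_{p ∈ W S} f_p ^ 2 / (1 + a_p ^ 2)`.
Since `d x = 0` almost everywhere, `a x = 0` and `Z.dist p Z.x = E |Y_p|`.
Facts used without comment: `Z.μ` is a probability measure, `∫ Y_p = 0`, `Z.dist` is symmetric and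
satisfies the triangle inequality. Every goal may use the earlier ones as hypotheses (the docstring
says which). All constants are real numbers which depend only on what stands before them.
-/

namespace Pool.Agent.Helper44.KS

open MeasureTheory Filter Topology Set
open scoped ENNReal ContDiff

noncomputable section

/-! ## 1. Facts about one system (from log-concavity; owner helper75) -/

/-- LAW. The difference of two coordinates has log-concave tails. PROOF. `lc` for the half spaces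
`{d | s < d p - d q}` (open, convex; `(1-t) u + t v` lies in `{d | (1-t) s + t s' < d p - d q}`), and the same
with `d p - d q < s`. -/
def S_LAW : Prop := ∀ (c : ℝ) (Z : KSys c) (p q : Fin Z.n),
  LCR (Z.μ.map fun d : Fin Z.n → ℝ => d p - d q)

/-- TLK. The tail. USES: LAW and the one-dimensional tail bound. -/
def S_TLK : Prop := ∀ (c : ℝ) (Z : KSys c) (p : Fin Z.n) (e l : ℝ), 0 < e → Z.dist p Z.x ≤ e →
  0 ≤ l → Z.μ.real {d | l * e < |Z.Y d p|} ≤ 4 * (2 : ℝ) ^ (-(l / 6))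

/-- M3K. Second and third moments. USES: LAW and the one-dimensional moment bounds. -/
def S_M3K : Prop := ∃ K : ℝ, 0 < K ∧ ∀ (c : ℝ) (Z : KSys c) (p q : Fin Z.n),
  Integrable (fun d => |Z.Y d p - Z.Y d q| ^ 2) Z.μ ∧
  Integrable (fun d => |Z.Y d p - Z.Y d q| ^ 3) Z.μ ∧
  ∫ d, |Z.Y d p - Z.Y d q| ^ 2 ∂Z.μ ≤ K * Z.dist p q ^ 2 ∧
  ∫ d, |Z.Y d p - Z.Y d q| ^ 3 ∂Z.μ ≤ K * Z.dist p q ^ 3

/-- ACK. Anticoncentration. USES: LAW and the one-dimensional small-ball bound. -/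
def S_ACK : Prop := ∀ (c : ℝ) (Z : KSys c) (p q : Fin Z.n) (z h : ℝ), 0 < h →
  Z.μ.real {d | |d p - d q - z| ≤ h} * Z.dist p q ≤ 10 * h

/-- CLU. The window is covered by a bounded number of clusters. USES: the soft pigeonhole, ACK.
PROOF. A maximal subset of the window with pairwise distances `> θ`; its cardinality is bounded by the soft
pigeonhole. -/
def S_CLU : Prop := ∀ c C θ : ℝ, 0 < c → 0 < C → 0 < θ → ∃ k : ℕ, ∀ Z : KSys c,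
  ∃ K : Finset (Fin Z.n), K ⊆ Z.W C ∧ K.card ≤ k ∧ ∀ p ∈ Z.W C, ∃ q ∈ K, Z.dist p q ≤ θ

/-! ## 2. Sums over the elements -/

/-- CEL. PROOF. Put `p` into the cell `j = ⌊a p⌋`; a cell has at most `15 S` elements (`cnt`); if `j ≥ 0` then
`|a p| ≥ j`, if `j < 0` then `|a p| ≥ |j| - 1`. So the sum is at most `2 * 15 * S * ∑_{j ≥ J'} 1/(1 + j)^2` where `j` runs
over the integers `j ≥ max (J - 1) 0` (elements with `|a p| ≥ J` have `|⌊a p⌋| ≥ J - 1`; on the negative side shift by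
one), and `∑_{j ≥ m} 1/(1+j)^2 ≤ 2/(1+m)`. (Any `K`, e.g. `200`.) -/
def S_CEL : Prop := ∃ K : ℝ, 0 < K ∧ ∀ (c : ℝ) (Z : KSys c) (J : ℝ), 0 ≤ J →
  ∑ p ∈ Finset.univ.filter (fun p => J ≤ |Z.a p|), 1 / (1 + |Z.a p|) ^ 2 ≤ K * Z.S / (1 + J)

/-- CNT. PROOF. `⌈v - u⌉ + 1` cells `[u + i, u + i + 1)` cover `[u, v]`. -/
def S_CNT : Prop := ∀ (c : ℝ) (Z : KSys c) (u v : ℝ), u ≤ v →
  ((Finset.univ.filter fun p => u ≤ Z.a p ∧ Z.a p ≤ v).card : ℝ) ≤ 15 * (v - u + 2) * Z.S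

/-- TLP. PROOF (uses TLK). With `s = |a p|` and `e = 4 + √s` (`m2` gives `dist p x ≤ e`, as `d x = 0` a.e. and
`a x = 0`): for `s > 0` the event is contained in `l e < |Y_p|` with `l = s / (4 e)`, so its probability is at
most `4 * 2 ^ (- s / (24 (4 + √s)))`; this times `(1 + s) ^ 3` is bounded on `s ≥ 0` (for `s ≥ 16`: `4 + √s ≤ 2 √s`;
`2 ^ (-x) ≤ C_k / x ^ k`). For `s = 0` the bound is trivial if `K ≥ 1`. -/
def S_TLP : Prop := ∃ K : ℝ, 0 < K ∧ ∀ (c : ℝ) (Z : KSys c) (p : Fin Z.n),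
  Z.μ.real {d | |Z.a p| / 2 ≤ |Z.Y d p|} ≤ K / (1 + |Z.a p|) ^ 3

/-- SEC. Second moments. PROOF (uses M3K, CEL). For `p ∈ W S`: `E |Y_p| ≤ 4` (`m1`), so `E Y_p ^ 2 ≤ 16 K` (M3K with
`q = x`), and `1/(1 + a^2) ≤ 2/(1 + |a|)^2`. Sum with CEL (`J = 0` for the first claim; for the second
`J = C'`: the sum is `≤ 32 K K' / (1 + C') ≤ ε`). -/
def S_SEC : Prop := (∃ K : ℝ, 0 < K ∧ ∀ (c : ℝ) (Z : KSys c),
    Integrable (fun d => Z.nq (Z.Y d)) Z.μ ∧ ∫ d, Z.nq (Z.Y d) ∂Z.μ ≤ K) ∧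
  ∀ ε : ℝ, 0 < ε → ∃ C' : ℝ, 1 ≤ C' ∧ ∀ (c : ℝ) (Z : KSys c),
    (∑ p ∈ (Z.W Z.S).filter (fun p => C' < |Z.a p|), (∫ d, Z.Y d p ^ 2 ∂Z.μ) / (1 + Z.a p ^ 2)) / Z.S ≤ ε

/-! ## 3. Small balls -/

/-- COV. Up to probability `η` the configuration lies in one of `M` sets of diameter `ρ`, where `M` does not
depend on the system. PROOF (uses CLU, M3K, SEC, CNT). Let `K0` be the constant of M3K. Choose `ε > 0` with
`16 ε / ρ^2 ≤ η/4`, then `C' ` from SEC, then `θ` with `K0 θ^2 * 15 (2 C' + 2) ≤ ε`, then `k` from CLU (window `C'`).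
For a system let `K` be the cluster centres (`card ≤ k`), `cl p ∈ K` a centre of `p ∈ W C'`. Put `Π(d)_p = Y d (cl p)`
for `p ∈ W C'` and `0` otherwise (it approximates `Y d`). Then `E nq (Y d - Π(d)) ≤ (1/S) ∑_{W S ∩ W C'} K0 θ^2/(1+a^2)
+ ε ≤ 2 ε` (the tail is SEC). By Markov `nq (Y d - Π(d)) ≤ ρ^2/16` outside an event of probability `≤ 32 ε/ρ^2 ≤ η/2`. The
values `Y d q`, `q ∈ K`, satisfy `E |Y_q| ≤ 4 + √C'`, so all of them are `≤ B := 2 k (4 + √C')/η + 1` in absolute value outside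
an event of probability `≤ η/2`. Choose `δ` with `δ^2 * 15 (2 C' + 2) ≤ ρ^2/16`; the cell of `d` is the function
`q ↦ ⌊Y d q / δ⌋` from `K` to the integers in `[-⌈B/δ⌉, ⌈B/δ⌉]`: at most `(2 ⌈B/δ⌉ + 1)^k` cells (enumerate them with
`Fin M`; unused indices get the empty set). For `d, d'` in the same set `E i` (same cell, both outside the two
bad events): `nq^{1/2} (d - d') = nq^{1/2} (Y d - Y d') ≤ ρ/4 + ρ/4 + ρ/4`, because `nq (Π(d) - Π(d')) ≤ δ^2 * 15 (2 C'+2)`. -/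
def S_COV : Prop := ∀ c ρ η : ℝ, 0 < c → 0 < ρ → 0 < η → ∃ M : ℕ, ∀ Z : KSys c,
  ∃ E : Fin M → Set (Fin Z.n → ℝ), (∀ i, MeasurableSet (E i)) ∧
    (∀ i, ∀ d ∈ E i, ∀ d' ∈ E i, Z.nq (fun p => d p - d' p) ≤ ρ ^ 2) ∧
    1 - η ≤ Z.μ.real (⋃ i, E i)

/-- NQS. `nq` is the square of a seminorm. PROOF. `nq f = ∑ (w_p f_p)^2` with
`w_p = ((1 + a_p^2) S)^{-1/2}` on `W S`: triangle inequality of the Euclidean norm. -/
def S_NQS : Prop := ∀ (c : ℝ) (Z : KSys c),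
  (∀ f g : Fin Z.n → ℝ, √(Z.nq fun p => f p + g p) ≤ √(Z.nq f) + √(Z.nq g)) ∧
  (∀ (f : Fin Z.n → ℝ) (t : ℝ), √(Z.nq fun p => t * f p) = |t| * √(Z.nq f)) ∧
  (∀ f, 0 ≤ Z.nq f) ∧ Continuous Z.nq

/-- CVX. The set of the centres of balls of mass at least `κ` is convex. PROOF (uses NQS). If `f, g` are in the
set and `0 < t < 1` then the balls `A = {nq (d - f) < ρ^2}`, `B = {nq (d - g) < ρ^2}` are open and convex, and
`(1-t) A + t B` is contained in the ball of `(1-t) f + t g`, so `lc` gives mass `≥ κ^{1-t} κ^t = κ`. (`κ ≤ 0` is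
trivial.) -/
def S_CVX : Prop := ∀ (c : ℝ) (Z : KSys c) (κ ρ : ℝ), 0 < ρ →
  Convex ℝ {f : Fin Z.n → ℝ | κ ≤ Z.μ.real {d | Z.nq (fun p => d p - f p) < ρ ^ 2}}

/-- ATT. Every average of the configuration with a density `ψ ≤ 2` is the centre of a ball of mass at least `κ`,
where `κ` does not depend on the system. PROOF (uses COV, CVX, SEC, NQS). Let `K0` be the first constant of SEC and
`η` with `η ≤ 1/16` and `20 √η √(K0 + 1) ≤ ρ/4`. Take `M` from COV for `ρ/8` and `η`, `κ := η / (M + 1)`. For a system, let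
`A` be the union of the sets `E i` with `μ (E i) ≥ κ`: `μ(A) ≥ 1 - 2 η`. Let `𝒢 = {f | κ ≤ μ {nq (d - f) < (ρ/4)^2}}`; it is
convex (CVX), and `A ⊆ 𝒢` (for `d ∈ E i` the ball of `d` contains `E i`). Let `β = ∫_A ψ ≥ 1 - 4 η ≥ 1/2` and
`f^A = β⁻¹ ∫_A ψ d`. By `Convex.integral_mem` for the closure of `𝒢` and the probability measure
`β⁻¹ ψ μ|_A` (it is carried by `A ⊆ 𝒢`), `f^A ∈ closure 𝒢`; so there is `f' ∈ 𝒢` with `nq (f' - f^A) < (ρ/4)^2` (`nq` is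
continuous). Let `f = ∫ ψ d`. `f^A - f = β⁻¹ ∫_A ψ (d - f) = - β⁻¹ ∫_{A^c} ψ (d - f)`, so (seminorm of an integral,
then Cauchy-Schwarz) `√nq (f^A - f) ≤ 2 * 2 * √(μ A^c) * √(∫ nq (d - f)) ≤ 4 √(2 η) √(8 K0) ≤ ρ/4`, because
`√nq (d - f) ≤ √nq (Y d) + √nq (f - a)` and `nq (f - a) ≤ ∫ ψ nq (Y d) ≤ 2 K0` (Jensen, or Cauchy-Schwarz in each
coordinate: `(∫ ψ Y_p)^2 ≤ ∫ ψ Y_p^2`). So the ball of radius `ρ` of `f` contains the ball of radius `ρ/4` of `f'`. -/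
def S_ATT : Prop := ∀ c ρ : ℝ, 0 < c → 0 < ρ → ∃ κ : ℝ, 0 < κ ∧ ∀ (Z : KSys c)
  (ψ : (Fin Z.n → ℝ) → ℝ), Measurable ψ → (∀ d, 0 ≤ ψ d ∧ ψ d ≤ 2) → ∫ d, ψ d ∂Z.μ = 1 →
  κ ≤ Z.μ.real {d | Z.nq (fun p => d p - ∫ e, ψ e * e p ∂Z.μ) < ρ ^ 2}

/-! ## 4. Filling -/

/-- FAR. Elements whose mean position is farther than `S` never enter a fixed window. PROOF (uses TLP, CEL).
For `S ≥ 2 C + 2`, `|a p| > S` and `|d p| ≤ C` imply `|Y d p| ≥ |a p| - C ≥ |a p|/2`. Union bound: the probability is at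
most `∑_{|a p| > S} K/(1+|a p|)^3 ≤ K/(1 + S) * ∑_{|a p| ≥ S} 1/(1+|a p|)^2 ≤ K K' S/(1+S)^2 → 0`. -/
def S_FAR : Prop := ∀ (c : ℝ) (Z : ℕ → KSys c), Tendsto (fun N => (Z N).S) atTop atTop → ∀ C : ℝ,
  Tendsto (fun N => (Z N).μ.real {d | ∃ p, (Z N).S < |(Z N).a p| ∧ |d p| ≤ C}) atTop (𝓝 0)

/-- DET. Comparison of two configurations. PROOF (uses CNT). Let `|G| ≤ B`, `G` Lipschitz with constant `L`,
`G = 0` outside `[-C, C]`, and let `C2 = 2 C + 32`. For `p ∈ W S` with `|a p| ≤ C2`: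
`|G (f p) - G (d p)| ≤ L |f p - d p|`, and by Cauchy-Schwarz the sum over these `p` (divided by `S`) is at most
`L (15 (2 C2 + 2))^{1/2} (1 + C2^2)^{1/2} ρ`. For `p ∈ W S` with `|a p| > C2`: `|f p| ≥ |a p| - 8 > C`, so `G (f p) = 0`;
if `|d p| ≤ C` then `|d p - f p| ≥ |a p| - 8 - C ≥ |a p|/2`, so `(d p - f p)^2/(1 + a^2) ≥ 1/8`: at most `8 ρ^2 S` such `p`.
For `p ∉ W S`: `G (d p) = 0`. -/
def S_DET : Prop := ∀ G : ℝ → ℝ, ∀ L C B : ℝ, 0 ≤ L → 0 < C → (∀ y z, |G y - G z| ≤ L * |y - z|) →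
  (∀ y, |G y| ≤ B) → (∀ y, C < |y| → G y = 0) → ∃ K : ℝ, 0 < K ∧ ∀ (c : ℝ) (Z : KSys c)
  (f d : Fin Z.n → ℝ) (ρ : ℝ), 0 < ρ → ρ ≤ 1 → (∀ p ∈ Z.W Z.S, |f p - Z.a p| ≤ 8) →
  (∀ p, Z.S < |Z.a p| → C < |d p|) → Z.nq (fun p => d p - f p) < ρ ^ 2 →
  |(∑ p ∈ Z.W Z.S, G (f p)) / Z.S - (∑ p, G (d p)) / Z.S| ≤ K * ρ

/-- FIL. All averages of the configuration fill the line with density one. PROOF (uses ATT, FAR, DET). `G` is
Lipschitz, bounded, and zero outside some `[-C, C]`. Fix `ε > 0`, let `K` be from DET and `ρ ≤ 1` with `K ρ ≤ ε/2`, `κ` from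
ATT. For large `N` the events `{ε/2 < |(∑ G (d p))/S - ∫ G|}` (`Filling`) and `{∃ p, S < |a p| ∧ |d p| ≤ C}` (FAR) have
probability `< κ/2` each, so there is `d` in the ball `{nq (d - f) < ρ^2}` of `f = ∫ ψ d` outside both. Apply DET to
`f, d`: for `p ∈ W S`, `|f p - a p| = |∫ ψ Y_p| ≤ 2 E |Y_p| ≤ 8` (`m1`). -/
def S_FIL : Prop := ∀ (c : ℝ), 0 < c → ∀ Z : ℕ → KSys c, Tendsto (fun N => (Z N).S) atTop atTop →
  Filling Z → ∀ ψ : ∀ N, (Fin (Z N).n → ℝ) → ℝ, (∀ N, Measurable (ψ N)) →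
  (∀ N d, 0 ≤ ψ N d ∧ ψ N d ≤ 2) → (∀ N, ∫ d, ψ N d ∂(Z N).μ = 1) →
  ∀ G : ℝ → ℝ, ContDiff ℝ ∞ G → HasCompactSupport G →
  Tendsto (fun N => (∑ p ∈ (Z N).W (Z N).S, G (∫ e, ψ N e * e p ∂(Z N).μ)) / (Z N).S) atTop
    (𝓝 (∫ y, G y))

end

end Pool.Agent.Helper44.KS
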