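import Pool.Agent.Helper44.KS.Adapt
import Pool.Agent.Helper44.KS.ACK
import Pool.Agent.Helper44.KS.BSQ
import Pool.Agent.Helper44.KS.DET
import Pool.Agent.Helper12.KS.CEL
import Pool.Agent.Helper14.KS.TLP
import Pool.Agent.Helper2.KS.DYC
import Pool.Agent.Helper22.KS.JLD
import Pool.Agent.Helper24.KS.SEC
import Pool.Agent.Helper26.KS.LSB
import Pool.Agent.Helper32.KS.SHF
import Pool.Agent.Helper40.KS.NRM
import Pool.Agent.Helper46.KS.CVX
import Pool.Agent.Helper46.KS.TRA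
import Pool.Agent.Helper49.KS.CLU
import Pool.Agent.Helper5.KS.FAR
import Pool.Agent.Helper51.KS.RAY
import Pool.Agent.Helper51.KS.TPR
import Pool.Agent.Helper55.KS.DYB
import Pool.Agent.Helper56.KS.NQS
import Pool.Agent.Helper58.KS.PRE
import Pool.Agent.Helper60.KS.PIG
import Pool.Agent.Helper62.KS.HJ
import Pool.Agent.Helper7.KS.COV
import Pool.Agent.Helper70.KS.FIN
import Pool.Agent.Helper72.KS.LTA
import Pool.Agent.Helper76.KS.LMO
import Pool.Agent.Helper81.KS.ATT
import Pool.Agent.Helper90.KS.TCT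
import Pool.Agent.Helper95.KS.FIL
import Pool.Agent.Helper96.KS.MKT
import Pool.Agent.Helper98.KS.CLO
import Pool.Agent.Helper99.KS.TRL

/-!
# The Kahn-Saks conjecture: the main abstract theorem
-/

namespace Pool.Agent.Helper44.KS

open Pool.Agent.Helper75.KS (LtaStmt LmoStmt LsbStmt RayStmt TprStmt TpxStmt DybStmt DycStmt PigStmt
  TraStmt CluStmt)

theorem t_lta : LtaStmt := Pool.Agent.Helper72.KS.lta
theorem t_lmo : LmoStmt := Pool.Agent.Helper76.KS.lmo t_lta
theorem t_lsb : LsbStmt := Pool.Agent.Helper26.KS.lsb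
theorem t_ray : RayStmt := Pool.Agent.Helper51.KS.ray
theorem t_tpr : TprStmt := Pool.Agent.Helper51.KS.tpr t_ray t_lta t_lmo t_lsb
theorem t_tpx : TpxStmt := Pool.Agent.Helper51.KS.tpx t_tpr
theorem t_tra : TraStmt := Pool.Agent.Helper46.KS.tra
theorem t_law : S_LAW := law t_ray
theorem t_tlk : S_TLK := tlk t_tpx
theorem t_m3k : S_M3K := m3k t_tpr
theorem t_ack : S_ACK := ack t_law
theorem t_cel : S_CEL := Pool.Agent.Helper12.KS.cel
theorem t_cnt : S_CNT := Pool.Agent.Helper12.KS.cnt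
theorem t_tlp : S_TLP := Pool.Agent.Helper14.KS.tlp t_tlk
theorem t_sec : S_SEC := Pool.Agent.Helper24.KS.sec t_m3k t_cel
theorem t_nqs : S_NQS := Pool.Agent.Helper56.KS.nqs
theorem t_cvx : S_CVX := Pool.Agent.Helper46.KS.cvx t_nqs
theorem t_far : S_FAR := Pool.Agent.Helper5.KS.far t_tlp t_cel
theorem t_tct : S_TCT := Pool.Agent.Helper90.KS.tct
theorem t_hj : S_HJ := Pool.Agent.Helper62.KS.hj t_tct
theorem t_jld : S_JLD := Pool.Agent.Helper22.KS.jld
theorem t_bsq : S_BSQ := bsq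

theorem t_trl : S_TRL := Pool.Agent.Helper99.KS.trl t_hj t_jld t_bsq t_tct
theorem t_pre : S_PRE := Pool.Agent.Helper58.KS.pre t_trl t_tct
theorem t_dyb : DybStmt := Pool.Agent.Helper55.KS.dyb
theorem t_dyc : DycStmt := Pool.Agent.Helper2.KS.dyc t_dyb
theorem t_pig : PigStmt := Pool.Agent.Helper60.KS.pig t_dyc t_tpr
theorem t_clu : S_CLU := clu (Pool.Agent.Helper49.KS.clu t_pig t_tra)
theorem t_cov : S_COV := Pool.Agent.Helper7.KS.cov t_clu t_m3k t_sec t_cnt t_nqs
theorem t_att : S_ATT := Pool.Agent.Helper81.KS.att t_cov t_cvx t_sec t_nqs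
theorem t_clo : S_CLO := Pool.Agent.Helper98.KS.clo t_clu t_m3k
theorem t_fil (hDET : S_DET) : S_FIL := Pool.Agent.Helper95.KS.s_fil t_att t_far hDET
theorem t_nrm (hDET : S_DET) : S_NRM := Pool.Agent.Helper40.KS.nrm (t_fil hDET) t_tlp t_cel t_cnt
theorem t_mkt (hDET : S_DET) : S_MKT := Pool.Agent.Helper96.KS.mkt (t_fil hDET) t_pre
theorem t_shf (hDET : S_DET) : S_SHF := Pool.Agent.Helper32.KS.shf (t_nrm hDET) t_clo (t_mkt hDET)

theorem main_of (hDET : S_DET) : S_MAIN := Pool.Agent.Helper70.KS.fin (t_shf hDET) t_ack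

theorem t_det : S_DET := det t_cnt

/-- There is no sequence of systems without `c`-balanced pairs with `S → ∞` which fill the line. -/
theorem s_main : S_MAIN := main_of t_det

end Pool.Agent.Helper44.KS
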